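import Pool.Agent.Lib.MP_d0e829_nt.SH.Spec

set_option autoImplicit false

open NumberField

namespace Pool.Agent.Lib.MP_d0e829_nt.SH

theorem specEVL : SpecEVL := by
  intro k K _ _ _ u v t
  refine ⟨?_, ?_, ?_⟩
  · simp [evalForm, Fin.sum_univ_three, ln, pt]
    ring
  · intro h
    have := congrFun h 0
    simp [pt] at this
  · intro h
    have := congrFun h 2
    simp [ln] at this

end Pool.Agent.Lib.MP_d0e829_nt.SH
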