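import Pool.Agent.Lib.MP_d0e829_nt.SH.Spec

set_option autoImplicit false

open NumberField Polynomial

namespace Pool.Agent.Lib.MP_d0e829_nt.SH

namespace EXTM

theorem monicProd {k : Type} [Field k] {δ : ℕ} (a : Fin δ → ℤ) :
    (∏ i, (X - C ((a i : ℤ) : k))).Monic ∧ (∏ i, (X - C ((a i : ℤ) : k))).natDegree = δ := by
  refine ⟨monic_prod_of_monic _ _ fun i _ => monic_X_sub_C _, ?_⟩
  rw [natDegree_prod_of_monic _ _ fun i _ => monic_X_sub_C _]
  simp only [natDegree_X_sub_C, Finset.sum_const, Finset.card_univ, Fintype.card_fin, smul_eq_mul,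
    mul_one]

theorem evalProd {k K : Type} [Field k] [Field K] [Algebra k K] {δ : ℕ} (a : Fin δ → ℤ) (t : K) :
    aeval t (∏ i, (X - C ((a i : ℤ) : k))) = ∏ i, (t - a i) := by
  rw [map_prod]
  refine Finset.prod_congr rfl fun i _ => ?_
  simp

end EXTM

open EXTM in
theorem specEXT : SpecEXT := by
  intro k _ _ δ hδ a b m hm
  obtain ⟨hPm, hPd⟩ := monicProd (k := k) a
  obtain ⟨hQm, hQd⟩ := monicProd (k := k) b
  have hPe := fun (K : Type) [Field K] [Algebra k K] (t : K) => evalProd (k := k) a t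
  have hQe := fun (K : Type) [Field K] [Algebra k K] (t : K) => evalProd (k := k) b t
  generalize (∏ i, (X - C ((a i : ℤ) : k))) = P at hPm hPd hPe
  generalize (∏ i, (X - C ((b i : ℤ) : k))) = Q at hQm hQd hQe
  have hPc : P.coeff δ = 1 := by rw [← hPd]; exact hPm
  have hQc : Q.coeff δ = 1 := by rw [← hQd]; exact hQm
  have hc : (P - C ((2 : k) ^ m) * Q).coeff δ = 1 - 2 ^ m := by
    rw [coeff_sub, coeff_C_mul, hPc, hQc, mul_one]
  have hne : (1 - 2 ^ m : k) ≠ 0 := by
    intro h
    have h1 : (2 : k) ^ m = 1 := (sub_eq_zero.mp h).symm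
    have h2 : ((2 ^ m : ℕ) : k) = ((1 : ℕ) : k) := by push_cast; exact h1
    have h3 := Nat.cast_injective h2
    have h4 : 1 < 2 ^ m := Nat.one_lt_two_pow (by omega)
    omega
  have hF0 : P - C ((2 : k) ^ m) * Q ≠ 0 := by
    intro h
    rw [h, coeff_zero] at hc
    exact hne hc.symm
  have hdeg : (P - C ((2 : k) ^ m) * Q).natDegree ≤ δ := by
    refine (natDegree_sub_le _ _).trans (max_le hPd.le ?_)
    exact (natDegree_C_mul_le _ _).trans hQd.le
  have hdeg' : δ ≤ (P - C ((2 : k) ^ m) * Q).natDegree :=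
    le_natDegree_of_ne_zero (by rw [hc]; exact hne)
  have hdeg0 : (P - C ((2 : k) ^ m) * Q).degree ≠ 0 := by
    intro h
    have h1 : (P - C ((2 : k) ^ m) * Q).natDegree = 0 :=
      natDegree_eq_zero_iff_degree_le_zero.mpr h.le
    omega
  obtain ⟨τ, hτ⟩ := IsAlgClosed.exists_aeval_eq_zero (AlgebraicClosure k) _ hdeg0
  have hint : IsIntegral k τ := Algebra.IsIntegral.isIntegral τ
  have hfd : FiniteDimensional k (IntermediateField.adjoin k {τ}) :=
    IntermediateField.adjoin.finiteDimensional hint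
  have hfr : Module.finrank k (IntermediateField.adjoin k {τ}) = (minpoly k τ).natDegree :=
    IntermediateField.adjoin.finrank hint
  have hnf : NumberField (IntermediateField.adjoin k {τ}) :=
    NumberField.of_module_finite k (IntermediateField.adjoin k {τ})
  refine ⟨IntermediateField.adjoin k {τ}, inferInstance, hnf, inferInstance,
    IntermediateField.AdjoinSimple.gen k τ, ?_, ?_⟩
  · rw [hfr]
    exact (natDegree_le_of_dvd (minpoly.dvd k τ hτ) hF0).trans hdeg
  · have h0 : aeval (IntermediateField.AdjoinSimple.gen k τ) (P - C ((2 : k) ^ m) * Q) = 0 := by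
      apply (algebraMap (IntermediateField.adjoin k {τ}) (AlgebraicClosure k)).injective
      rw [map_zero, ← aeval_algebraMap_apply, IntermediateField.AdjoinSimple.algebraMap_gen]
      exact hτ
    rw [map_sub, map_mul, aeval_C, hPe _ _, hQe _ _, map_pow, map_ofNat, sub_eq_zero] at h0
    exact h0

end Pool.Agent.Lib.MP_d0e829_nt.SH
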