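import Pool.Agent.Lib.MP_d0e829_nt.SH.Spec

/-!
# Module FIN: assembly
-/

set_option autoImplicit false

open NumberField

namespace Pool.Agent.Lib.MP_d0e829_nt.SH

namespace FINM

lemma LL_two (F : Type) [Field F] {δ : ℕ} (a b : Fin δ → ℤ) (p : Fin δ × Fin 3) :
    LL F a b p 2 = 1 := by
  obtain ⟨i, c⟩ := p
  fin_cases c <;> simp [LL, ln]

/-- every line is of the form `ln u v` with `u, v` among the points -/
lemma LL_form (F : Type) [Field F] {δ : ℕ} (a b : Fin δ → ℤ) (p : Fin δ × Fin 3) :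
    ∃ u v : ℤ, LL F a b p = ln F u v ∧ (u = a p.1 ∨ u = b p.1) ∧ (v = a p.1 ∨ v = b p.1) := by
  obtain ⟨i, c⟩ := p
  fin_cases c
  · exact ⟨a i, a i, by simp [LL], Or.inl rfl, Or.inl rfl⟩
  · exact ⟨b i, b i, by simp [LL], Or.inr rfl, Or.inr rfl⟩
  · exact ⟨a i, b i, by simp [LL], Or.inl rfl, Or.inr rfl⟩

end FINM

theorem specFIN (hEVL : SpecEVL) (hSPL : SpecSPL) (hLCT : SpecLCT) (hSET : SpecSET)
    (hGEN : SpecGEN) (hINT : SpecINT) (hHGT : SpecHGT) (hEXT : SpecEXT) (hZAV : SpecZAV) :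
    SpecFIN := by
  classical
  intro k _ _ δ q hδ hq
  obtain ⟨a, b, hab, hgp⟩ := hGEN δ
  have hN : (2 * ∏ i, ∏ j, (a i - b j) : ℤ) ≠ 0 := by
    refine mul_ne_zero (by norm_num) ?_
    refine Finset.prod_ne_zero_iff.2 fun i _ => Finset.prod_ne_zero_iff.2 fun j _ => ?_
    exact sub_ne_zero.2 (hab i j)
  obtain ⟨S, hS⟩ := hSET k _ hN
  have hq' : q ≤ δ * 3 := by rw [mul_comm]; exact hq
  let e : Fin q → Fin δ × Fin 3 := fun i => finProdFinEquiv.symm (Fin.castLE hq' i)
  have he : Function.Injective e := by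
    intro i j hij
    exact Fin.castLE_injective hq' (finProdFinEquiv.symm.injective hij)
  refine ⟨S, fun i => LL k a b (e i), ?_, ?_⟩
  · intro i j l hij hil hjl
    exact hgp k (e i) (e j) (e l) (fun h => hij (he h)) (fun h => hil (he h))
      (fun h => hjl (he h))
  · intro Z B hZ
    obtain ⟨m₀, hm₀⟩ := (hZAV (AlgebraicClosure k) δ a b hab).2 Z hZ
    obtain ⟨E, hE⟩ := hHGT k δ a b
    have hlog2 : 0 < Real.log 2 := Real.log_pos (by norm_num)
    obtain ⟨m₁, hm₁⟩ := exists_nat_gt (δ * (|B| + |E|) / (2 * Real.log 2))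
    obtain ⟨m, hm1, hmm0, hmm1⟩ : ∃ m : ℕ, 1 ≤ m ∧ m₀ ≤ m ∧ m₁ ≤ m :=
      ⟨1 + m₀ + m₁, by omega, by omega, by omega⟩
    have hm : δ * (|B| + |E|) ≤ 2 * m * Real.log 2 := by
      have h1 : δ * (|B| + |E|) / (2 * Real.log 2) < (m : ℝ) :=
        lt_of_lt_of_le hm₁ (by exact_mod_cast hmm1)
      have h2 := (div_lt_iff₀ (by positivity)).1 h1
      nlinarith [h2]
    obtain ⟨K, _, _, _, t, hfin, ht⟩ := hEXT k δ hδ a b m hm1
    obtain ⟨hta, htb⟩ := (hZAV K δ a b hab).1 m t ht
    have hx : pt t ≠ 0 := (hEVL k K 0 0 t).2.1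
    have hev : ∀ p : Fin δ × Fin 3, evalForm (LL k a b p) (pt t) ≠ 0 := by
      intro p
      obtain ⟨u, v, h1, hu, hv⟩ := FINM.LL_form k a b p
      rw [h1, (hEVL k K u v t).1]
      refine mul_ne_zero (sub_ne_zero.2 ?_) (sub_ne_zero.2 ?_)
      · rcases hu with rfl | rfl
        · exact hta _
        · exact htb _
      · rcases hv with rfl | rfl
        · exact hta _
        · exact htb _
    have hloc : ∀ p : Fin δ × Fin 3, ∀ w ∉ placesAbove K S, loc (LL k a b p) (pt t) w = 0 := by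
      intro p w hw
      obtain ⟨w', rfl, hw'⟩ := hS K w hw
      have h2 := hSPL K δ a b m t ht w' hw'
      obtain ⟨u, v, h1, hu, hv⟩ := FINM.LL_form k a b p
      rw [h1]
      refine hLCT k K u v t w' ?_ ?_
      · rcases hu with rfl | rfl
        · exact (h2 _).1
        · exact (h2 _).2
      · rcases hv with rfl | rfl
        · exact (h2 _).1
        · exact (h2 _).2
    have hint : ∀ i : Fin q, height (pt t) ≤
        ∑ᶠ w ∈ placesAbove K S, loc (LL k a b (e i)) (pt t) w := fun i =>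
      hINT k S K (LL k a b (e i)) (pt t) (FINM.LL_two k a b (e i)) hx (hev _) (hloc _)
    refine ⟨K, inferInstance, inferInstance, inferInstance, pt t, hfin, hx, fun i => hev _, ?_, ?_, ?_⟩
    · intro σ M hM
      have hσ : ∏ i, (σ t - (a i : AlgebraicClosure k)) = 2 ^ m * ∏ i, (σ t - (b i : AlgebraicClosure k)) := by
        have h3 := congrArg σ ht
        simpa [map_prod, map_sub, map_intCast, map_mul, map_pow, map_ofNat] using h3
      have h4 := hm₀ m hmm0 (σ t) hσ M hM
      have h5 : ∀ j, σ (pt t j) = pt (σ t) j := by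
        intro j
        fin_cases j <;> simp [pt]
      simpa only [h5] using h4
    · have h6 := hE K m t hta htb ht
      have hδ' : (0 : ℝ) < δ := by exact_mod_cast hδ
      have h7 : |B| + |E| ≤ height (pt t) + E := by
        have h8 : (δ : ℝ) * (|B| + |E|) ≤ δ * (height (pt t) + E) := hm.trans h6
        exact le_of_mul_le_mul_left h8 hδ'
      have h9 := le_abs_self B
      have h10 := le_abs_self E
      linarith
    · unfold proximity
      have h11 : (q : ℝ) * height (pt t) = ∑ _i : Fin q, height (pt t) := by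
        rw [Finset.sum_const, Finset.card_univ, Fintype.card_fin, nsmul_eq_mul]
      rw [h11]
      exact Finset.sum_le_sum fun i _ => hint i

end Pool.Agent.Lib.MP_d0e829_nt.SH
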