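import Pool.Agent.Lib.MP_d0e829_nt.SH.Spec

/-!
# The general choice of the points (GEN)
-/

set_option autoImplicit false

open NumberField

namespace Pool.Agent.Lib.MP_d0e829_nt.SH

namespace GENM

/-- the determinant of the three lines with the parameters `(u, v)` -/
def F {R : Type*} [CommRing R] (u1 v1 u2 v2 u3 v3 : R) : R :=
  u1 * v1 * (-(u2 + v2) * 1 - 1 * (-(u3 + v3))) - (-(u1 + v1)) * (u2 * v2 * 1 - 1 * (u3 * v3)) +
    1 * (u2 * v2 * (-(u3 + v3)) - -(u2 + v2) * (u3 * v3))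

lemma map_F {R S : Type*} [CommRing R] [CommRing S] (φ : R →+* S) (u1 v1 u2 v2 u3 v3 : R) :
    φ (F u1 v1 u2 v2 u3 v3) = F (φ u1) (φ v1) (φ u2) (φ v2) (φ u3) (φ v3) := by
  simp only [F, map_add, map_sub, map_mul, map_neg, map_one]

/-- the first parameter -/
def uu {R : Type*} {δ : ℕ} (a b : Fin δ → R) (p : Fin δ × Fin 3) : R := ![a p.1, b p.1, a p.1] p.2

/-- the second parameter -/
def vv {R : Type*} {δ : ℕ} (a b : Fin δ → R) (p : Fin δ × Fin 3) : R := ![a p.1, b p.1, b p.1] p.2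

lemma map_uu {R S : Type*} {δ : ℕ} (φ : R → S) (a b : Fin δ → R) (p : Fin δ × Fin 3) :
    φ (uu a b p) = uu (fun i => φ (a i)) (fun i => φ (b i)) p := by
  obtain ⟨i, s⟩ := p
  fin_cases s <;> simp [uu]

lemma map_vv {R S : Type*} {δ : ℕ} (φ : R → S) (a b : Fin δ → R) (p : Fin δ × Fin 3) :
    φ (vv a b p) = vv (fun i => φ (a i)) (fun i => φ (b i)) p := by
  obtain ⟨i, s⟩ := p
  fin_cases s <;> simp [vv]

/-- the value of the determinant for the triple -/
def G {R : Type*} [CommRing R] {δ : ℕ} (a b : Fin δ → R) (p q r : Fin δ × Fin 3) : R :=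
  F (uu a b p) (vv a b p) (uu a b q) (vv a b q) (uu a b r) (vv a b r)

lemma map_G {R S : Type*} [CommRing R] [CommRing S] (φ : R →+* S) {δ : ℕ} (a b : Fin δ → R)
    (p q r : Fin δ × Fin 3) :
    φ (G a b p q r) = G (fun i => φ (a i)) (fun i => φ (b i)) p q r := by
  unfold G
  rw [map_F, map_uu (⇑φ) a b p, map_uu (⇑φ) a b q, map_uu (⇑φ) a b r, map_vv (⇑φ) a b p,
    map_vv (⇑φ) a b q, map_vv (⇑φ) a b r]

lemma LL_eq (k : Type) [Field k] {δ : ℕ} (a b : Fin δ → ℤ) (p : Fin δ × Fin 3) :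
    LL k a b p = ![((uu a b p : ℤ) : k) * ((vv a b p : ℤ) : k),
      -(((uu a b p : ℤ) : k) + ((vv a b p : ℤ) : k)), 1] := by
  obtain ⟨i, s⟩ := p
  fin_cases s <;> simp [LL, ln, uu, vv]

lemma det_eq (k : Type) [Field k] {δ : ℕ} (a b : Fin δ → ℤ) (p q r : Fin δ × Fin 3) :
    (Matrix.of ![LL k a b p, LL k a b q, LL k a b r]).det = ((G a b p q r : ℤ) : k) := by
  rw [Matrix.det_fin_three, LL_eq, LL_eq, LL_eq]
  have h := map_G (Int.castRingHom k) a b p q r
  simp only [eq_intCast] at h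
  rw [h]
  simp only [map_uu (fun z : ℤ => (z : k)), map_vv (fun z : ℤ => (z : k)), G, F]
  simp
  ring

/-- for every triple there is a good integral point -/
lemma exists_point {δ : ℕ} (p q r : Fin δ × Fin 3) (hpq : p ≠ q) (hpr : p ≠ r) (hqr : q ≠ r) :
    ∃ a b : Fin δ → ℤ, G a b p q r ≠ 0 := by
  obtain ⟨i, s⟩ := p
  obtain ⟨j, t⟩ := q
  obtain ⟨l, u⟩ := r
  by_cases hij : i = j
  · subst hij
    refine ⟨fun x => if x = i then 0 else 2, fun x => if x = i then 1 else 2, ?_⟩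
    by_cases hil : i = l
    · subst hil
      fin_cases s <;> fin_cases t <;> fin_cases u <;> simp_all [G, F, uu, vv]
    · have hil' : ¬ l = i := fun h => hil h.symm
      fin_cases s <;> fin_cases t <;> fin_cases u <;> simp_all [G, F, uu, vv]
  · by_cases hil : i = l
    · subst hil
      have hji : ¬ j = i := fun h => hij h.symm
      refine ⟨fun x => if x = i then 0 else 2, fun x => if x = i then 1 else 2, ?_⟩
      fin_cases s <;> fin_cases t <;> fin_cases u <;> simp_all [G, F, uu, vv]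
    · by_cases hjl : j = l
      · subst hjl
        refine ⟨fun x => if x = j then 0 else 2, fun x => if x = j then 1 else 2, ?_⟩
        fin_cases s <;> fin_cases t <;> fin_cases u <;> simp_all [G, F, uu, vv]
      · refine ⟨fun x => (x.val : ℤ), fun x => (x.val : ℤ), ?_⟩
        have h1 : (i.val : ℤ) ≠ j.val := fun h => hij (Fin.ext (by exact_mod_cast h))
        have h2 : (i.val : ℤ) ≠ l.val := fun h => hil (Fin.ext (by exact_mod_cast h))
        have h3 : (j.val : ℤ) ≠ l.val := fun h => hjl (Fin.ext (by exact_mod_cast h))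
        have e : G (fun x : Fin δ => (x.val : ℤ)) (fun x => (x.val : ℤ)) (i, s) (j, t) (l, u) =
            -2 * ((i.val : ℤ) - j.val) * ((i.val : ℤ) - l.val) * ((j.val : ℤ) - l.val) := by
          fin_cases s <;> fin_cases t <;> fin_cases u <;> simp [G, F, uu, vv] <;> ring
        rw [e]
        exact mul_ne_zero (mul_ne_zero (mul_ne_zero (by norm_num) (sub_ne_zero.2 h1))
          (sub_ne_zero.2 h2)) (sub_ne_zero.2 h3)

end GENM

open GENM MvPolynomial in
theorem specGEN : SpecGEN := by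
  classical
  intro δ
  let A : Fin δ → MvPolynomial (Fin δ ⊕ Fin δ) ℤ := fun i => X (Sum.inl i)
  let B : Fin δ → MvPolynomial (Fin δ ⊕ Fin δ) ℤ := fun i => X (Sum.inr i)
  let T : Finset ((Fin δ × Fin 3) × (Fin δ × Fin 3) × (Fin δ × Fin 3)) :=
    Finset.univ.filter (fun t => t.1 ≠ t.2.1 ∧ t.1 ≠ t.2.2 ∧ t.2.1 ≠ t.2.2)
  let P : MvPolynomial (Fin δ ⊕ Fin δ) ℤ := (∏ t ∈ T, G A B t.1 t.2.1 t.2.2) *
    ∏ ij : Fin δ × Fin δ, (A ij.1 - B ij.2)
  have hG : ∀ (a b : Fin δ → ℤ) (p q r : Fin δ × Fin 3),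
      eval (Sum.elim a b) (G A B p q r) = G a b p q r := by
    intro a b p q r
    rw [map_G]
    simp [A, B]
  have hP : P ≠ 0 := by
    apply mul_ne_zero
    · rw [Finset.prod_ne_zero_iff]
      intro t ht h0
      have ht' := (Finset.mem_filter.1 ht).2
      obtain ⟨a, b, h⟩ := exists_point t.1 t.2.1 t.2.2 ht'.1 ht'.2.1 ht'.2.2
      apply h
      rw [← hG, h0, map_zero]
    · rw [Finset.prod_ne_zero_iff]
      intro ij _ h0
      have h := congrArg (eval (Sum.elim (fun _ => (0 : ℤ)) (fun _ => 1))) h0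
      simp [A, B] at h
  obtain ⟨x, hx⟩ : ∃ x : Fin δ ⊕ Fin δ → ℤ, eval x P ≠ 0 := by
    by_contra hcon
    push Not at hcon
    exact hP (MvPolynomial.funext fun x => by rw [hcon x, map_zero])
  have hxe : x = Sum.elim (fun i => x (Sum.inl i)) (fun i => x (Sum.inr i)) := by
    funext s
    cases s <;> rfl
  have hx1 : ∏ t ∈ T, eval x (G A B t.1 t.2.1 t.2.2) ≠ 0 := by
    intro h
    apply hx
    simp only [P, map_mul, map_prod]
    rw [h, zero_mul]
  have hx2 : ∏ ij : Fin δ × Fin δ, eval x (A ij.1 - B ij.2) ≠ 0 := by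
    intro h
    apply hx
    simp only [P, map_mul, map_prod]
    rw [h, mul_zero]
  rw [Finset.prod_ne_zero_iff] at hx1 hx2
  refine ⟨fun i => x (Sum.inl i), fun i => x (Sum.inr i), ?_, ?_⟩
  · intro i j h
    apply hx2 (i, j) (Finset.mem_univ _)
    simp [A, B, h]
  · intro k _ _ p q r hpq hpr hqr
    have h1 := hx1 (p, q, r) (Finset.mem_filter.2 ⟨Finset.mem_univ _, hpq, hpr, hqr⟩)
    simp only at h1
    rw [hxe, hG] at h1
    have h2 : (Matrix.of ![LL k (fun i => x (Sum.inl i)) (fun i => x (Sum.inr i)) p,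
        LL k (fun i => x (Sum.inl i)) (fun i => x (Sum.inr i)) q,
        LL k (fun i => x (Sum.inl i)) (fun i => x (Sum.inr i)) r]).det ≠ 0 := by
      rw [det_eq]
      exact Int.cast_ne_zero.2 h1
    exact Matrix.linearIndependent_rows_of_det_ne_zero h2

end Pool.Agent.Lib.MP_d0e829_nt.SH
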