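import Pool.Agent.Lib.MP_d0e829_nt.SH.Spec

/-!
Module HGT: the height of the points tends to infinity.
-/

set_option autoImplicit false

open NumberField

namespace Pool.Agent.Lib.MP_d0e829_nt.SH

namespace HGTM

theorem absV_prod {K : Type} [Field K] [NumberField K] {δ : ℕ} (w : Place K) (f : Fin δ → K) :
    absV w (∏ i, f i) = ∏ i, absV w (f i) := by
  classical
  have h : ∀ s : Finset (Fin δ), absV w (∏ i ∈ s, f i) = ∏ i ∈ s, absV w (f i) := by
    intro s
    induction s using Finset.induction_on with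
    | empty => simp
    | insert i s hi ih => rw [Finset.prod_insert hi, Finset.prod_insert hi, absV_mul, ih]
  exact h Finset.univ

theorem log_absV_prod {K : Type} [Field K] [NumberField K] {δ : ℕ} (w : Place K) (f : Fin δ → K)
    (hf : ∀ i, f i ≠ 0) :
    Real.log (absV w (∏ i, f i)) = ∑ i, Real.log (absV w (f i)) := by
  rw [absV_prod, Real.log_prod (fun i _ => (absV_pos w (hf i)).ne')]

theorem absV_pow {K : Type} [Field K] [NumberField K] (w : Place K) (c : K) (m : ℕ) :
    absV w (c ^ m) = absV w c ^ m := by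
  induction m with
  | zero => simp
  | succ m ih => rw [pow_succ, pow_succ, absV_mul, ih]

theorem log_absV_two {K : Type} [Field K] [NumberField K] (w : InfinitePlace K) :
    Real.log (absV (Sum.inl w : Place K) (2 : K)) = weight (Sum.inl w : Place K) * Real.log 2 := by
  have h2 : (2 : K) ≠ 0 := two_ne_zero
  rw [log_absV _ h2]
  have : rawAbs (Sum.inl w : Place K) (2 : K) = 2 := by
    change w (2 : K) = 2
    rw [← InfinitePlace.norm_embedding_eq w (2 : K), map_ofNat]
    exact Complex.norm_ofNat 2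
  rw [this]

theorem key {K : Type} [Field K] [NumberField K] {δ : ℕ} (a b : Fin δ → ℤ) (m : ℕ) (t : K)
    (hta : ∀ i, t ≠ a i) (htb : ∀ i, t ≠ b i)
    (hprod : ∏ i, (t - a i) = 2 ^ m * ∏ i, (t - b i)) (w : InfinitePlace K) :
    ∑ i, Real.log (absV (Sum.inl w : Place K) (t - a i))
      = m * (weight (Sum.inl w : Place K) * Real.log 2)
        + ∑ i, Real.log (absV (Sum.inl w : Place K) (t - b i)) := by
  have h2 : (2 : K) ≠ 0 := two_ne_zero
  have ha : ∀ i, t - (a i : K) ≠ 0 := fun i => sub_ne_zero.mpr (hta i)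
  have hb : ∀ i, t - (b i : K) ≠ 0 := fun i => sub_ne_zero.mpr (htb i)
  have hbp : ∏ i, (t - (b i : K)) ≠ 0 := Finset.prod_ne_zero_iff.mpr fun i _ => hb i
  rw [← log_absV_prod _ _ ha, hprod, absV_mul,
    Real.log_mul (absV_pos _ (pow_ne_zero m h2)).ne' (absV_pos _ hbp).ne',
    absV_pow, Real.log_pow, log_absV_two, log_absV_prod _ _ hb]

end HGTM

theorem specHGT (hEVL : SpecEVL) : SpecHGT := by
  classical
  intro k _ _ δ a b
  let A : Finset k :=
    Finset.univ.image (fun p : Fin δ × Fin 3 => ln k (a p.1) (a p.1) p.2) ∪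
      Finset.univ.image (fun p : Fin δ × Fin 3 => ln k (b p.1) (b p.1) p.2)
  obtain ⟨E, hE⟩ := exists_bound_err A
  refine ⟨2 * E, ?_⟩
  intro K _ _ _ m t hta htb hprod
  have hA1 : ∀ i j, ln k (a i) (a i) j ∈ A := fun i j =>
    Finset.mem_union_left _ (Finset.mem_image.mpr ⟨(i, j), Finset.mem_univ _, rfl⟩)
  have hA2 : ∀ i j, ln k (b i) (b i) j ∈ A := fun i j =>
    Finset.mem_union_right _ (Finset.mem_image.mpr ⟨(i, j), Finset.mem_univ _, rfl⟩)
  have ha : ∀ i, t - (a i : K) ≠ 0 := fun i => sub_ne_zero.mpr (hta i)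
  have hb : ∀ i, t - (b i : K) ≠ 0 := fun i => sub_ne_zero.mpr (htb i)
  have ha0 : ∀ i, evalForm (ln k (a i) (a i)) (pt t) ≠ 0 := by
    intro i
    rw [(hEVL k K (a i) (a i) t).1]
    exact mul_ne_zero (ha i) (ha i)
  have hb0 : ∀ i, evalForm (ln k (b i) (b i)) (pt t) ≠ 0 := by
    intro i
    rw [(hEVL k K (b i) (b i) t).1]
    exact mul_ne_zero (hb i) (hb i)
  have hmua : ∀ (w : Place K) (i : Fin δ), mu (ln k (a i) (a i)) w (pt t)
      = Real.log (normV w (pt t)) - 2 * Real.log (absV w (t - a i)) := by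
    intro w i
    unfold mu
    rw [(hEVL k K (a i) (a i) t).1, absV_mul,
      Real.log_mul (absV_pos w (ha i)).ne' (absV_pos w (ha i)).ne']
    ring
  have hmub : ∀ (w : Place K) (i : Fin δ), mu (ln k (b i) (b i)) w (pt t)
      = Real.log (normV w (pt t)) - 2 * Real.log (absV w (t - b i)) := by
    intro w i
    unfold mu
    rw [(hEVL k K (b i) (b i) t).1, absV_mul,
      Real.log_mul (absV_pos w (hb i)).ne' (absV_pos w (hb i)).ne']
    ring
  have hw : ∀ w : InfinitePlace K,
      2 * m * (weight (Sum.inl w : Place K) * Real.log 2) - δ * err A (Sum.inl w : Place K)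
        ≤ ∑ i, mu (ln k (b i) (b i)) (Sum.inl w : Place K) (pt t) := by
    intro w
    have h1 : ∑ i, mu (ln k (b i) (b i)) (Sum.inl w : Place K) (pt t)
        = ∑ i, mu (ln k (a i) (a i)) (Sum.inl w : Place K) (pt t)
          + 2 * m * (weight (Sum.inl w : Place K) * Real.log 2) := by
      simp only [hmua, hmub]
      rw [Finset.sum_sub_distrib, Finset.sum_sub_distrib, ← Finset.mul_sum, ← Finset.mul_sum,
        HGTM.key a b m t hta htb hprod w]
      ring
    have h2 : ∑ i : Fin δ, (-(err A (Sum.inl w : Place K)))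
        ≤ ∑ i, mu (ln k (a i) (a i)) (Sum.inl w : Place K) (pt t) := by
      refine Finset.sum_le_sum fun i _ => ?_
      have := mu_add_err_nonneg (hA1 i) (Sum.inl w : Place K) (ha0 i)
      linarith
    rw [Finset.sum_const, Finset.card_univ, Fintype.card_fin, nsmul_eq_mul] at h2
    rw [h1]
    linarith
  let T : Finset (Place K) := Finset.univ.map ⟨(Sum.inl : InfinitePlace K → Place K), Sum.inl_injective⟩
  have hT : ∀ f : Place K → ℝ, ∑ w ∈ T, f w = ∑ w : InfinitePlace K, f (Sum.inl w) := by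
    intro f
    simp only [T, Finset.sum_map, Function.Embedding.coeFn_mk]
  have hup : ∀ i, ∑ w : InfinitePlace K, mu (ln k (b i) (b i)) (Sum.inl w : Place K) (pt t)
      ≤ height (pt t) + E := by
    intro i
    rw [← hT (fun w => mu (ln k (b i) (b i)) w (pt t))]
    exact (sum_mu_le (hA2 i) (hb0 i) T).trans (by have := hE K; linarith)
  have herr : ∑ w : InfinitePlace K, err A (Sum.inl w : Place K) ≤ E := by
    rw [← hT (fun w => err A w)]
    exact (sum_le_finsum (err_nonneg A) (support_err_finite A) T).trans (hE K)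
  have hlow : 2 * m * Real.log 2 - δ * ∑ w : InfinitePlace K, err A (Sum.inl w : Place K)
      ≤ ∑ w : InfinitePlace K, ∑ i, mu (ln k (b i) (b i)) (Sum.inl w : Place K) (pt t) := by
    calc 2 * m * Real.log 2 - δ * ∑ w : InfinitePlace K, err A (Sum.inl w : Place K)
        = ∑ w : InfinitePlace K,
            (2 * m * (weight (Sum.inl w : Place K) * Real.log 2)
              - δ * err A (Sum.inl w : Place K)) := by
          rw [Finset.sum_sub_distrib, ← Finset.mul_sum, ← Finset.mul_sum, ← Finset.sum_mul,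
            sum_weight_inf, one_mul]
      _ ≤ _ := Finset.sum_le_sum fun w _ => hw w
  rw [Finset.sum_comm] at hlow
  have hup2 : ∑ i : Fin δ, ∑ w : InfinitePlace K,
      mu (ln k (b i) (b i)) (Sum.inl w : Place K) (pt t) ≤ δ * (height (pt t) + E) := by
    calc _ ≤ ∑ i : Fin δ, (height (pt t) + E) := Finset.sum_le_sum fun i _ => hup i
      _ = δ * (height (pt t) + E) := by
        rw [Finset.sum_const, Finset.card_univ, Fintype.card_fin, nsmul_eq_mul]
  have hδ : (0 : ℝ) ≤ δ := Nat.cast_nonneg δ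
  have h3 : (δ : ℝ) * ∑ w : InfinitePlace K, err A (Sum.inl w : Place K) ≤ δ * E :=
    mul_le_mul_of_nonneg_left herr hδ
  have h4 : (δ : ℝ) * (height (pt t) + 2 * E) = δ * (height (pt t) + E) + δ * E := by ring
  linarith

end Pool.Agent.Lib.MP_d0e829_nt.SH
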