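import Pool.Agent.Lib.MP_d0e829_nt.SH.Spec

/-!
# MP_d0e829_nt, SH: module INT (one line)
-/

set_option autoImplicit false

open NumberField

namespace Pool.Agent.Lib.MP_d0e829_nt.SH

theorem specINT : SpecINT := by
  intro k _ _ S K _ _ _ c x hc hx hev hloc
  have hc0 : (fun j => algebraMap k K (c j)) ≠ 0 := by
    intro h
    have h2 := congrFun h 2
    simp [hc] at h2
  have hs1 := support_log_normV_finite hx
  have hs2 := support_log_normV_finite hc0
  have hs3 := support_log_absV_finite hev
  have hl : ∀ w : Place K, loc c x w = Real.log (normV w x) +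
      Real.log (normV w fun j => algebraMap k K (c j)) - Real.log (absV w (evalForm c x)) := by
    intro w
    unfold loc
    rw [Real.log_div (mul_pos (normV_pos w hx) (normV_pos w hc0)).ne' (absV_pos w hev).ne',
      Real.log_mul (normV_pos w hx).ne' (normV_pos w hc0).ne']
  have hsum : ∑ᶠ w ∈ placesAbove K S, loc c x w = ∑ᶠ w : Place K, loc c x w := by
    apply finsum_congr
    intro w
    by_cases h : w ∈ placesAbove K S
    · simp [h]
    · simp [h, hloc w h]
  have hs12 : (Function.support fun w : Place K => Real.log (normV w x) +
      Real.log (normV w fun j => algebraMap k K (c j))).Finite :=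
    (hs1.union hs2).subset (Function.support_add _ _)
  have h2 : 0 ≤ ∑ᶠ w : Place K, Real.log (normV w fun j => algebraMap k K (c j)) := by
    refine finsum_nonneg fun w => Real.log_nonneg ?_
    have h3 := absV_le_normV w (fun j => algebraMap k K (c j)) 2
    have h4 : absV w (algebraMap k K (c 2)) = 1 := by
      rw [hc, map_one, absV_one]
    rwa [h4] at h3
  rw [hsum, finsum_congr hl, finsum_sub_distrib hs12 hs3, finsum_add_distrib hs1 hs2,
    product_formula hev, sub_zero]
  unfold height
  linarith

end Pool.Agent.Lib.MP_d0e829_nt.SH
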