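import Pool.Agent.Lib.MP_d0e829_nt.SH.Spec

/-!
# MP_d0e829_nt, SH: module LCT (the local term vanishes)
-/

set_option autoImplicit false

open NumberField

namespace Pool.Agent.Lib.MP_d0e829_nt.SH

namespace LCTM

theorem int_le {K : Type} [Field K] [NumberField K] (w : FinitePlace K) (n : ℤ) :
    absV (Sum.inr w : Place K) ((n : ℤ) : K) ≤ 1 := by
  have h1 : w ((n : ℤ) : K) ≤ 1 := by
    have h := finitePlace_int_le_one w ((n : ℤ) : 𝓞 K)
    have h2 : (((n : ℤ) : 𝓞 K) : K) = ((n : ℤ) : K) := by
      exact map_intCast (algebraMap (𝓞 K) K) n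
    rwa [h2] at h
  have h2 : 0 ≤ rawAbs (Sum.inr w : Place K) ((n : ℤ) : K) := by
    simp only [rawAbs]
    exact apply_nonneg w _
  unfold absV
  exact Real.rpow_le_one h2 h1 (weight_pos _).le

theorem norm_ln {k K : Type} [Field k] [Field K] [NumberField K] [Algebra k K] (u v : ℤ)
    (w : FinitePlace K) :
    normV (Sum.inr w : Place K) (fun j => algebraMap k K (ln k u v j)) = 1 := by
  apply le_antisymm
  · unfold normV
    refine ciSup_le fun j => ?_
    fin_cases j
    · have h : algebraMap k K (ln k u v 0) = ((u * v : ℤ) : K) := by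
        have h0 : ln k u v 0 = ((u * v : ℤ) : k) := rfl
        rw [h0, map_intCast]
      exact (le_of_eq (congrArg _ h)).trans (int_le w _)
    · have h : algebraMap k K (ln k u v 1) = ((-(u + v) : ℤ) : K) := by
        have h0 : ln k u v 1 = ((-(u + v) : ℤ) : k) := rfl
        rw [h0, map_intCast]
      exact (le_of_eq (congrArg _ h)).trans (int_le w _)
    · have h : algebraMap k K (ln k u v 2) = 1 := by
        have h0 : ln k u v 2 = (1 : k) := rfl
        rw [h0, map_one]
      exact (le_of_eq (congrArg _ h)).trans (le_of_eq (absV_one _))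
  · have h : algebraMap k K (ln k u v 2) = 1 := by
      have h0 : ln k u v 2 = (1 : k) := rfl
      rw [h0, map_one]
    have h1 := absV_le_normV (Sum.inr w : Place K) (fun j => algebraMap k K (ln k u v j)) 2
    have h2 : absV (Sum.inr w : Place K) (algebraMap k K (ln k u v 2)) = 1 := by
      rw [h, absV_one]
    exact h2.symm.le.trans h1

theorem norm_pt {K : Type} [Field K] [NumberField K] (t : K) (w : FinitePlace K) :
    normV (Sum.inr w : Place K) (pt t) =
      max 1 (absV (Sum.inr w : Place K) t) * max 1 (absV (Sum.inr w : Place K) t) := by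
  set W : Place K := Sum.inr w with hW
  set y := max 1 (absV W t) with hy
  have ha0 : 0 ≤ absV W t := absV_nonneg W t
  have hy1 : 1 ≤ y := le_max_left _ _
  have hya : absV W t ≤ y := le_max_right _ _
  have e0 : absV W (pt t 0) = 1 := by
    have h0 : pt t 0 = (1 : K) := rfl
    rw [h0, absV_one]
  have e1 : absV W (pt t 1) = absV W t := rfl
  have e2 : absV W (pt t 2) = absV W t * absV W t := by
    have h0 : pt t 2 = t ^ 2 := rfl
    rw [h0, sq, absV_mul]
  apply le_antisymm
  · unfold normV
    refine ciSup_le fun j => ?_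
    fin_cases j
    · refine (le_of_eq e0).trans ?_
      nlinarith
    · refine (le_of_eq e1).trans ?_
      nlinarith
    · refine (le_of_eq e2).trans ?_
      exact mul_le_mul hya hya ha0 (zero_le_one.trans hy1)
  · rcases le_total 1 (absV W t) with h | h
    · have h1 : y = absV W t := max_eq_right h
      rw [h1, ← e2]
      exact absV_le_normV W (pt t) 2
    · have h1 : y = 1 := max_eq_left h
      rw [h1, mul_one, ← e0]
      exact absV_le_normV W (pt t) 0

end LCTM

theorem specLCT (hEVL : SpecEVL) : SpecLCT := by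
  intro k K _ _ _ _ u v t w hu hv
  have hy : 0 < max 1 (absV (Sum.inr w : Place K) t) :=
    zero_lt_one.trans_le (le_max_left _ _)
  unfold loc
  rw [(hEVL k K u v t).1, absV_mul, hu, hv, LCTM.norm_ln, LCTM.norm_pt, mul_one,
    div_self (mul_pos hy hy).ne', Real.log_one]

end Pool.Agent.Lib.MP_d0e829_nt.SH
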