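import Pool.Agent.Lib.MP_d0e829_nt.SH.Spec
import Pool.Agent.Lib.MP_d0e829_nt.SI.SUP

/-!
# MP_d0e829, SH, module SET: the set of places
-/

set_option autoImplicit false

open NumberField

namespace Pool.Agent.Lib.MP_d0e829_nt.SH

namespace SETM

theorem eq_one_iff {K : Type} [Field K] [NumberField K] (w : FinitePlace K) (N : ℤ) :
    w ((N : ℤ) : K) = 1 ↔ ((N : ℤ) : 𝓞 K) ∉ w.maximalIdeal.asIdeal := by
  have h : algebraMap (𝓞 K) K ((N : ℤ) : 𝓞 K) = ((N : ℤ) : K) := map_intCast _ N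
  rw [← FinitePlace.norm_eq_one_iff_notMem K, FinitePlace.norm_embedding_eq, h]

end SETM

theorem specSET : SpecSET := by
  classical
  intro k _ _ N hN
  have hN' : ((N : ℤ) : k) ≠ 0 := Int.cast_ne_zero.2 hN
  have hfin : (Function.mulSupport fun v : FinitePlace k => v ((N : ℤ) : k)).Finite :=
    FinitePlace.hasFiniteMulSupport hN'
  refine ⟨(Finset.univ : Finset (InfinitePlace k)).map ⟨Sum.inl, Sum.inl_injective⟩ ∪
    hfin.toFinset.map ⟨Sum.inr, Sum.inr_injective⟩, ?_⟩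
  intro K _ _ _ w hw
  cases w with
  | inl w' =>
    exfalso
    apply hw
    refine ⟨Sum.inl (w'.comap (algebraMap k K)), ?_, rfl⟩
    rw [Finset.mem_union]
    left
    rw [Finset.mem_map]
    exact ⟨_, Finset.mem_univ _, rfl⟩
  | inr w' =>
    refine ⟨w', rfl, ?_⟩
    obtain ⟨v, hv⟩ := SI.SUPM.exists_fin (k := k) w'
    have h1 : v ((N : ℤ) : k) = 1 := by
      by_contra h
      apply hw
      refine ⟨Sum.inr v, ?_, hv⟩
      rw [Finset.mem_union]
      right
      rw [Finset.mem_map]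
      exact ⟨v, hfin.mem_toFinset.2 h, rfl⟩
    have h2 : ((N : ℤ) : 𝓞 k) ∉ v.maximalIdeal.asIdeal := (SETM.eq_one_iff v N).1 h1
    have h3 : ((N : ℤ) : 𝓞 K) ∉ w'.maximalIdeal.asIdeal := by
      intro h4
      apply h2
      rw [← hv, Ideal.mem_comap, map_intCast]
      exact h4
    have h4 : w' ((N : ℤ) : K) = 1 := (SETM.eq_one_iff w' N).2 h3
    show (w' ((N : ℤ) : K)) ^ weight (Sum.inr w' : Place K) = 1
    rw [h4, Real.one_rpow]

end Pool.Agent.Lib.MP_d0e829_nt.SH
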