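import Pool.Agent.Lib.MP_d0e829_nt.SH.Spec

/-!
# MP_d0e829_nt : module SPL of SH, the places not above `S`
-/

set_option autoImplicit false

open NumberField

namespace Pool.Agent.Lib.MP_d0e829_nt.SH

namespace SPLM

theorem allone {ι : Type} [Fintype ι] [DecidableEq ι] (f : ι → ℝ) (h0 : ∀ i, 0 ≤ f i)
    (h1 : ∀ i, f i ≤ 1) (h : ∏ i, f i = 1) : ∀ i, f i = 1 := by
  intro i
  by_contra hne
  have hlt : f i < 1 := lt_of_le_of_ne (h1 i) hne
  have h2 := Finset.mul_prod_erase Finset.univ f (Finset.mem_univ i)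
  have hp : ∏ j ∈ Finset.univ.erase i, f j ≤ 1 :=
    Finset.prod_le_one (fun j _ => h0 j) (fun j _ => h1 j)
  rw [h] at h2
  nlinarith [h0 i]

theorem core {K : Type} [Field K] (v : K → ℝ) (h0 : ∀ x, 0 ≤ v x)
    (hm : ∀ x y, v (x * y) = v x * v y) (ha : ∀ x y, v (x + y) ≤ max (v x) (v y))
    (hn : ∀ x, v (-x) = v x) (h1 : v 1 = 1) (hz : ∀ n : ℤ, v (n : K) ≤ 1)
    (δ : ℕ) (a b : Fin δ → ℤ) (m : ℕ) (t : K)
    (he : ∏ i, (t - a i) = 2 ^ m * ∏ i, (t - b i))
    (hN : v (((2 * ∏ i, ∏ j, (a i - b j) : ℤ) : ℤ) : K) = 1) :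
    ∀ i, v (t - a i) = max 1 (v t) ∧ v (t - b i) = max 1 (v t) := by
  classical
  let V : K →* ℝ := { toFun := v, map_one' := h1, map_mul' := hm }
  have hprod : ∀ f : Fin δ → K, v (∏ i, f i) = ∏ i, v (f i) := fun f => map_prod V f Finset.univ
  have hpow : ∀ (x : K) (n : ℕ), v (x ^ n) = v x ^ n := fun x n => map_pow V x n
  have hsub : ∀ x y, v (x - y) ≤ max (v x) (v y) := by
    intro x y
    rw [sub_eq_add_neg, ← hn y]
    exact ha _ _
  -- the factors of `N`
  have h2 : v (2 : K) ≤ 1 := by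
    have := hz 2
    simpa using this
  have hab1 : ∀ i j, v ((a i : K) - b j) ≤ 1 := by
    intro i j
    have := hz (a i - b j)
    push_cast at this
    exact this
  have hN' : v (2 : K) * ∏ i, ∏ j, v ((a i : K) - b j) = 1 := by
    have h3 : ((2 * ∏ i, ∏ j, (a i - b j) : ℤ) : K) = 2 * ∏ i, ∏ j, ((a i : K) - b j) := by
      push_cast
      rfl
    rw [h3, hm, hprod] at hN
    rw [← hN]
    congr 1
    apply Finset.prod_congr rfl
    intro i _
    rw [hprod]
  have hin0 : ∀ i, 0 ≤ ∏ j, v ((a i : K) - b j) := fun i => Finset.prod_nonneg (fun j _ => h0 _)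
  have hin1 : ∀ i, ∏ j, v ((a i : K) - b j) ≤ 1 := fun i =>
    Finset.prod_le_one (fun j _ => h0 _) (fun j _ => hab1 i j)
  have hout0 : 0 ≤ ∏ i, ∏ j, v ((a i : K) - b j) := Finset.prod_nonneg (fun i _ => hin0 i)
  have hout1 : ∏ i, ∏ j, v ((a i : K) - b j) ≤ 1 :=
    Finset.prod_le_one (fun i _ => hin0 i) (fun i _ => hin1 i)
  have hv2 : v (2 : K) = 1 := by
    apply le_antisymm h2
    nlinarith [h0 (2 : K)]
  have hout : ∏ i, ∏ j, v ((a i : K) - b j) = 1 := by
    rw [hv2, one_mul] at hN'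
    exact hN'
  have hab : ∀ i j, v ((a i : K) - b j) = 1 := fun i =>
    allone _ (fun j => h0 _) (fun j => hab1 i j) (allone _ hin0 hin1 hout i)
  have hev : ∏ i, v (t - a i) = ∏ i, v (t - b i) := by
    rw [← hprod, he, hm, hpow, hv2, one_pow, one_mul, hprod]
  rcases lt_or_ge 1 (v t) with ht | ht
  · have key : ∀ u : ℤ, v (t - u) = max 1 (v t) := by
      intro u
      have hu := hz u
      rw [max_eq_right ht.le]
      apply le_antisymm
      · exact (hsub t u).trans (max_le le_rfl (hu.trans ht.le))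
      · by_contra hlt
        push Not at hlt
        have h4 := ha (t - u) (u : K)
        rw [sub_add_cancel] at h4
        have h5 : max (v (t - u)) (v (u : K)) < v t := max_lt hlt (lt_of_le_of_lt hu ht)
        linarith
    exact fun i => ⟨key _, key _⟩
  · rw [max_eq_left ht]
    have hle : ∀ u : ℤ, v (t - u) ≤ 1 := fun u => (hsub t u).trans (max_le ht (hz u))
    have hA : ∀ i, v (t - a i) = 1 := by
      intro i
      by_contra hne
      have hlt : v (t - a i) < 1 := lt_of_le_of_ne (hle _) hne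
      have hB : ∀ j, v (t - b j) = 1 := by
        intro j
        apply le_antisymm (hle _)
        have h4 := hsub (t - b j) (t - a i)
        have h5 : (t - (b j : K)) - (t - a i) = a i - b j := by ring
        rw [h5, hab i j] at h4
        rcases le_max_iff.mp h4 with h6 | h6
        · exact h6
        · linarith
      have h7 : ∏ i, v (t - a i) = 1 := by
        rw [hev]
        exact Finset.prod_eq_one (fun j _ => hB j)
      exact hne (allone _ (fun j => h0 _) (fun j => hle _) h7 i)
    have h8 : ∏ i, v (t - b i) = 1 := by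
      rw [← hev]
      exact Finset.prod_eq_one (fun j _ => hA j)
    exact fun i => ⟨hA i, allone _ (fun j => h0 _) (fun j => hle _) h8 i⟩

end SPLM

open SPLM in
theorem specSPL : SpecSPL := by
  intro K _ _ δ a b m t he w hN
  have hadd : ∀ x y, absV (Sum.inr w : Place K) (x + y) ≤
      max (absV (Sum.inr w : Place K) x) (absV (Sum.inr w : Place K) y) := by
    intro x y
    have := absV_add_le (Sum.inr w : Place K) x y
      (B := max (absV (Sum.inr w : Place K) x) (absV (Sum.inr w : Place K) y))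
      (le_max_left _ _) (le_max_right _ _)
    simpa [kap] using this
  refine core (absV (Sum.inr w : Place K)) (absV_nonneg _) (absV_mul _) hadd (absV_neg _)
    (absV_one _) ?_ δ a b m t he hN
  intro n
  have h1 : w ((n : 𝓞 K) : K) ≤ 1 := finitePlace_int_le_one w (n : 𝓞 K)
  have h2 : ((n : 𝓞 K) : K) = (n : K) := by simp
  rw [h2] at h1
  have h3 : absV (Sum.inr w : Place K) (n : K) = (w (n : K)) ^ weight (Sum.inr w : Place K) := rfl
  rw [h3]
  exact Real.rpow_le_one (apply_nonneg w _) h1 (weight_pos _).le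

end Pool.Agent.Lib.MP_d0e829_nt.SH
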