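import Pool.Agent.Lib.MP_d0e829_nt.SH.Spec

/-!
# MP_d0e829_nt, module ZAV: avoiding finitely many lines
-/

set_option autoImplicit false

namespace Pool.Agent.Lib.MP_d0e829_nt.SH

open Polynomial in
/-- the points of the conic on a given line -/
theorem ZAVM.fin {L : Type} [Field L] (M : Fin 3 → L) (hM : M ≠ 0) :
    {τ : L | ∑ j, M j * pt τ j = 0}.Finite := by
  have hp : (C (M 0) + C (M 1) * X + C (M 2) * X ^ 2 : L[X]) ≠ 0 := by
    intro h0
    apply hM
    have h1 : ∀ n, (C (M 0) + C (M 1) * X + C (M 2) * X ^ 2 : L[X]).coeff n = 0 := by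
      intro n; rw [h0]; simp
    have e0 := h1 0
    have e1 := h1 1
    have e2 := h1 2
    simp [coeff_X, coeff_C, coeff_X_pow] at e0 e1 e2
    funext j
    fin_cases j
    · simpa using e0
    · simpa using e1
    · simpa using e2
  refine (Polynomial.finite_setOfPred_isRoot hp).subset ?_
  intro τ hτ
  have h2 : ∑ j, M j * pt τ j = 0 := hτ
  rw [Fin.sum_univ_three] at h2
  have h3 : M 0 * 1 + M 1 * τ + M 2 * τ ^ 2 = 0 := h2
  show IsRoot _ τ
  rw [IsRoot.def]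
  simp only [eval_add, eval_mul, eval_C, eval_X, eval_pow]
  rw [mul_one] at h3
  exact h3

/-- solutions of the equation are different from all the `a i` and `b i` -/
theorem ZAVM.ne {L : Type} [Field L] [CharZero L] {δ : ℕ} {a b : Fin δ → ℤ}
    (hab : ∀ i j, a i ≠ b j) (m : ℕ) (τ : L)
    (h : ∏ i, (τ - a i) = 2 ^ m * ∏ i, (τ - b i)) : (∀ i, τ ≠ a i) ∧ ∀ i, τ ≠ b i := by
  constructor
  · intro i hi
    have h1 : ∏ i, (τ - a i) = 0 :=
      Finset.prod_eq_zero (Finset.mem_univ i) (by rw [hi, sub_self])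
    rw [h1] at h
    have h2 : ∏ i, (τ - b i) = 0 := by
      rcases mul_eq_zero.1 h.symm with h3 | h3
      · exact absurd h3 (pow_ne_zero _ two_ne_zero)
      · exact h3
    obtain ⟨j, -, hj⟩ := Finset.prod_eq_zero_iff.1 h2
    have h4 : ((a i : ℤ) : L) = ((b j : ℤ) : L) := by rw [← hi]; exact sub_eq_zero.1 hj
    exact hab i j (Int.cast_injective h4)
  · intro i hi
    have h1 : ∏ i, (τ - b i) = 0 :=
      Finset.prod_eq_zero (Finset.mem_univ i) (by rw [hi, sub_self])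
    rw [h1, mul_zero] at h
    obtain ⟨j, -, hj⟩ := Finset.prod_eq_zero_iff.1 h
    have h4 : ((a j : ℤ) : L) = ((b i : ℤ) : L) := by rw [← hi]; exact (sub_eq_zero.1 hj).symm
    exact hab j i (Int.cast_injective h4)

theorem specZAV : SpecZAV := by
  intro L _ _ δ a b hab
  refine ⟨ZAVM.ne hab, ?_⟩
  intro Z hZ
  have hfin : (⋃ M ∈ Z, ⋃ τ ∈ {τ : L | ∑ j, M j * pt τ j = 0},
      {m : ℕ | ∏ i, (τ - a i) = 2 ^ m * ∏ i, (τ - b i)}).Finite := by
    refine Set.Finite.biUnion (Finset.finite_toSet Z) ?_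
    intro M hM
    refine Set.Finite.biUnion (ZAVM.fin M (hZ M hM)) ?_
    intro τ _
    refine Set.Subsingleton.finite ?_
    intro m hm m' hm'
    have h1 : ∏ i, (τ - a i) = 2 ^ m * ∏ i, (τ - b i) := hm
    have h2 : ∏ i, (τ - a i) = 2 ^ m' * ∏ i, (τ - b i) := hm'
    have h3 : ∏ i, (τ - b i) ≠ 0 := by
      rw [Finset.prod_ne_zero_iff]
      intro i _
      exact sub_ne_zero.2 ((ZAVM.ne hab m τ h1).2 i)
    have h4 : (2 : L) ^ m = 2 ^ m' := mul_right_cancel₀ h3 (h1.symm.trans h2)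
    have h5 : (2 : ℕ) ^ m = 2 ^ m' := by exact_mod_cast h4
    exact Nat.pow_right_injective (le_refl 2) h5
  obtain ⟨B, hB⟩ := hfin.bddAbove
  refine ⟨B + 1, ?_⟩
  intro m hm τ h M hM h0
  have h1 : m ∈ (⋃ M ∈ Z, ⋃ τ ∈ {τ : L | ∑ j, M j * pt τ j = 0},
      {m : ℕ | ∏ i, (τ - a i) = 2 ^ m * ∏ i, (τ - b i)}) := by
    simp only [Set.mem_iUnion]
    exact ⟨M, hM, τ, h0, h⟩
  have h2 := hB h1
  omega

end Pool.Agent.Lib.MP_d0e829_nt.SH
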