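import Pool.Agent.Lib.MP_d0e829_nt.SH.EVL
import Pool.Agent.Lib.MP_d0e829_nt.SH.SPL
import Pool.Agent.Lib.MP_d0e829_nt.SH.LCT
import Pool.Agent.Lib.MP_d0e829_nt.SH.SET
import Pool.Agent.Lib.MP_d0e829_nt.SH.GEN
import Pool.Agent.Lib.MP_d0e829_nt.SH.INT
import Pool.Agent.Lib.MP_d0e829_nt.SH.HGT
import Pool.Agent.Lib.MP_d0e829_nt.SH.EXT
import Pool.Agent.Lib.MP_d0e829_nt.SH.ZAV
import Pool.Agent.Lib.MP_d0e829_nt.SH.FIN

/-!
# The constant `3 δ` is optimal for every `δ`
-/

set_option autoImplicit false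

open NumberField

namespace Pool.Agent.Lib.MP_d0e829_nt.SH

/-- For every number field `k`, `δ ≥ 1` and `q ≤ 3 δ` there are `S` and `q` lines over `k` in general
position such that off every finite set of lines there are points of degree `≤ δ` and arbitrarily
large height with `m_{D,S}(P) ≥ q h(P)`. -/
theorem sharp : SpecFIN :=
  specFIN specEVL specSPL (specLCT specEVL) specSET specGEN specINT (specHGT specEVL) specEXT specZAV

end Pool.Agent.Lib.MP_d0e829_nt.SH
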