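import Pool.Agent.Lib.MP_d0e829_nt.Local
import Pool.Agent.Lib.MP_d0e829_nt.Count

/-!
# The constant `3 δ` is optimal for every `δ` (specifications of the modules)

THEOREM (`SpecFIN`).  For every number field `k`, all `δ ≥ 1` and `q ≤ 3 δ` there are a finite set `S` of
places of `k` and `q` lines over `k` in general position such that for every finite set `Z` of lines over
an algebraic closure of `k` and every `B` there is a point `P` of degree `≤ δ` off `Z` and off the lines
with `h(P) ≥ B` and `m_{D,S}(P) ≥ q h(P)` (an `S`-integral point).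

Proof.  On the conic `P(t) = [1 : t : t²]` the line `ln u v` (tangent at `u` if `u = v`, chord if `u ≠ v`) has
the value `(t - u) (t - v)`.  Take integers `a_i, b_i` (`i < δ`), the lines `ln a_i a_i`, `ln b_i b_i`,
`ln a_i b_i`, and `t` with `∏ (t - a_i) = 2^m ∏ (t - b_i)`.

Conventions.  Module `XXX` is the file `SH/XXX.lean`; it imports only `SH.Spec`; namespace
`Pool.Agent.Lib.MP_d0e829_nt.SH`; it proves `theorem specXXX (hYYY : SpecYYY) .. : SpecXXX`, hypotheses in
the order of `USES`; own lemmas in a namespace `XXXM`.  All docstrings are complete proofs.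
-/

set_option autoImplicit false

open NumberField

namespace Pool.Agent.Lib.MP_d0e829_nt.SH

/-- the line through the points `P(u)` and `P(v)` of the conic (the tangent if `u = v`) -/
def ln (F : Type) [Field F] (u v : ℤ) : Fin 3 → F := ![((u * v : ℤ) : F), ((-(u + v) : ℤ) : F), 1]

/-- the point `P(t)` of the conic -/
def pt {F : Type} [Field F] (t : F) : Fin 3 → F := ![1, t, t ^ 2]

/-- the `3 δ` lines -/
def LL (F : Type) [Field F] {δ : ℕ} (a b : Fin δ → ℤ) (p : Fin δ × Fin 3) : Fin 3 → F :=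
  ![ln F (a p.1) (a p.1), ln F (b p.1) (b p.1), ln F (a p.1) (b p.1)] p.2

/-- the local term of the proximity function -/
noncomputable def loc {k K : Type} [Field k] [Field K] [NumberField K] [Algebra k K]
    (c : Fin 3 → k) (x : Fin 3 → K) (w : Place K) : ℝ :=
  Real.log (normV w x * normV w (fun j => algebraMap k K (c j)) / absV w (evalForm c x))

/-- EVL (30 lines).  USES nothing.

PROOF.  `evalForm c x = ∑ j, algebraMap k K (c j) * x j` (`Fin.sum_univ_three`), `map_intCast`; `ring`.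
`pt t ≠ 0` as its first coordinate is `1`. -/
def SpecEVL : Prop := ∀ (k K : Type) [Field k] [Field K] [Algebra k K] (u v : ℤ) (t : K),
  evalForm (ln k u v) (pt t) = (t - u) * (t - v) ∧ pt t ≠ 0 ∧ ln k u v ≠ 0

/-- SPL (100 lines).  USES nothing.  The places not above `S`.

PROOF.  All is at one finite place `w`; `absV` is multiplicative (`absV_mul`), `absV_add_le` with `kap = 1` is the
ultrametric inequality, `absV_pos`, `absV_neg`, `|n|_w ≤ 1` for integers `n` (`absV w n = rawAbs ^ weight`, `w n ≤ 1` by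
`finitePlace_int_le_one` for `(n : 𝓞 K)`).  `N` is a product of the integers `2`, `a_i - b_j`, which all have absolute
value `≤ 1`, so all are of absolute value `1` (`1 = |N| = |x| |N / x| ≤ |x|` in the form: a product of numbers in
`[0, 1]` is `1` only if all are).
*`|t|_w > 1`*: `|t - u| ≤ max |t| |u| = |t|` and `|t| ≤ max |t - u| |u|`, `|u| ≤ 1 < |t|`, so `|t - u| = |t|` for all
integers `u`.
*`|t|_w ≤ 1`*: `|t - u| ≤ 1` for all integers `u`.  Suppose `|t - a_i| < 1` for an `i`.  For every `j`,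
`1 = |a_i - b_j| ≤ max |t - b_j| |t - a_i|`, so `|t - b_j| = 1`; so `∏ |t - a_i| = |2|^m ∏ |t - b_j| = 1`, but the left
side is `≤ |t - a_i| < 1`.  So all `|t - a_i| = 1`, so `∏ |t - b_j| = 1` with all factors `≤ 1`: all are `1`. -/
def SpecSPL : Prop := ∀ (K : Type) [Field K] [NumberField K] (δ : ℕ) (a b : Fin δ → ℤ) (m : ℕ) (t : K),
  ∏ i, (t - a i) = 2 ^ m * ∏ i, (t - b i) → ∀ w : FinitePlace K,
  absV (Sum.inr w : Place K) (((2 * ∏ i, ∏ j, (a i - b j) : ℤ) : ℤ) : K) = 1 →
  ∀ i, absV (Sum.inr w : Place K) (t - a i) = max 1 (absV (Sum.inr w : Place K) t) ∧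
    absV (Sum.inr w : Place K) (t - b i) = max 1 (absV (Sum.inr w : Place K) t)

/-- LCT (80 lines).  USES EVL.  The local term vanishes.

PROOF.  `y = max 1 |t|`.  `normV (pt t) = y²` (maximum of `1, |t|, |t|²`; `exists_normV_eq`, `absV_le_normV`).
`normV (ln u v) = 1` (`|uv|, |u + v| ≤ 1`, integers, and the last coordinate is `1`).
`|evalForm| = |t - u| |t - v| = y²`.  So `loc = log (y² * 1 / y²) = log 1 = 0`. -/
def SpecLCT : Prop := ∀ (k K : Type) [Field k] [Field K] [NumberField K] [Algebra k K] (u v : ℤ)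
  (t : K) (w : FinitePlace K),
  absV (Sum.inr w : Place K) (t - u) = max 1 (absV (Sum.inr w : Place K) t) →
  absV (Sum.inr w : Place K) (t - v) = max 1 (absV (Sum.inr w : Place K) t) →
  loc (ln k u v) (pt t) (Sum.inr w : Place K) = 0

/-- SET (120 lines).  USES nothing.  The set `S`.

PROOF.  `S` = all infinite places of `k` and the finite places `v` of `k` with `v N ≠ 1` (finitely many:
`support_log_absV_finite`, `log (absV v N) = 0` only if `v N = 1`).  Let `w` be a place of `K` not above `S`.  If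
`w = inl w'`, then `w` lies above `inl (w'.comap (algebraMap k K)) ∈ S`.  So `w = inr w'`.  `p = w'.maximalIdeal.asIdeal ∩ 𝓞 k` is a
nonzero prime of `𝓞 k` (`𝓞 K` is integral over `𝓞 k`), `v` the finite place of `k` of `p`; `w` lies above `inr v`
(`FinitePlace.mk`, `FinitePlace.maximalIdeal_mk`; this is also in `SI/SUP.lean`, module SUP of `SI`), so `v N = 1` (`inr v ∉ S`).
Hence `N ∉ p` (`w N < 1` if and only if `N` is in the maximal ideal: `FinitePlace.norm_lt_one_iff_mem` or similar), so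
`N ∉ w'.maximalIdeal`, `w' N = 1`, `absV = 1 ^ weight = 1`. -/
def SpecSET : Prop := ∀ (k : Type) [Field k] [NumberField k] (N : ℤ), N ≠ 0 →
  ∃ S : Finset (Place k), ∀ (K : Type) [Field K] [NumberField K] [Algebra k K] (w : Place K),
    w ∉ placesAbove K S → ∃ w' : FinitePlace K, w = Sum.inr w' ∧ absV w ((N : ℤ) : K) = 1

/-- GEN (220 lines).  USES nothing.  The general choice of the points.

PROOF.  Put `T u = ln u u`, `C u v = ln u v`, `P u = ![1, u, u²]`, `det` = determinant of the matrix with three rows;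
`k` has characteristic 0, and `LinearIndependent k ![x, y, z]` if and only if `det ≠ 0`
(`Matrix.linearIndependent_rows_iff_isUnit` or similar).  For `x, y` linearly independent `det ![x, y, z] = c ⬝ z` with
`c = x × y ≠ 0` (`crossProduct`).
Induction on `δ`: the statement for a finite family `ℓ` (the lines so far, in general position), with: all the lines are
nonzero.  Step: choose an integer `α` which is not a zero of any of the finitely many polynomials (in `α`)
(i) `ℓ_i ⬝ P α` (nonzero as `ℓ_i ≠ 0`), (ii) `(ℓ_i × ℓ_j) ⬝ T α`, `i ≠ j` (nonzero, as `c ⬝ (α², -2 α, 1)` is a nonzero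
polynomial for `c ≠ 0`; `ℓ_i × ℓ_j ≠ 0`: if there are at least three lines they are pairwise independent; for `δ = 0` there
are none), (iii) `α - b_j`, `α - a_j`.
Then choose an integer `β` which is not a zero of (i) `ℓ_i ⬝ P β`, (ii) `(ℓ_i × ℓ_j) ⬝ T β`, (iii) `β - b_j`, `β - a_j`, `β - α`, (iv)
`(ℓ_i × T α) ⬝ T β` (`ℓ_i`, `T α` are independent: `T α ⬝ P α = 0 ≠ ℓ_i ⬝ P α`, both are nonzero), (v) `(ℓ_i × ℓ_j) ⬝ C α β`:
for `c ≠ 0`, `c ⬝ C α β = β (c₀ α - c₁) + (c₂ - c₁ α)` is a nonzero polynomial in `β` unless `c₁ = c₀ α`, `c₂ = c₀ α²`, that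
is `c = c₀ P α`; but `c = ℓ_i × ℓ_j` is orthogonal to `ℓ_i` and `ℓ_i ⬝ P α ≠ 0`, `c₀ ≠ 0`.
The remaining triples: `det (ℓ_i, T α, C α β) = ± (α - β) (ℓ_i ⬝ P α)`, `det (ℓ_i, T β, C α β) = ± (α - β) (ℓ_i ⬝ P β)`,
`det (T α, T β, C α β) = ± (α - β)³` (`Matrix.det_fin_three`, `ring`): not 0.  (There are infinitely many integers, so a
nonzero polynomial over `k` has a nonzero value; take the product of the finitely many polynomials.)
ALTERNATIVE: rapidly increasing integers `a_0 ≪ b_0 ≪ a_1 ≪ b_1 ≪ …` and direct estimates of the integer determinants. -/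
def SpecGEN : Prop := ∀ (δ : ℕ), ∃ a b : Fin δ → ℤ, (∀ i j, a i ≠ b j) ∧
  ∀ (k : Type) [Field k] [CharZero k] (p q r : Fin δ × Fin 3), p ≠ q → p ≠ r → q ≠ r →
    LinearIndependent k ![LL k a b p, LL k a b q, LL k a b r]

/-- INT (100 lines).  USES nothing.  One line.

PROOF.  `loc c x w = log normV x + log normV c - log |c(x)|_w` (all three positive: `normV_pos`, `absV_pos`;
`Real.log_mul`, `Real.log_div`).  The three functions of `w` have finite support (`support_log_normV_finite` for `x` and for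
`fun j => algebraMap k K (c j)`, `support_log_absV_finite`).  By hypothesis `loc = 0` off `placesAbove K S`, so the sum over
`placesAbove K S` is the sum over all `w` (`finsum_mem_eq_finsum` / `finsum_mem_def` and the support), which is
`height x + ∑ log normV c - 0` (product formula), and `log normV c ≥ log |c_2|_w = log 1 = 0`. -/
def SpecINT : Prop := ∀ (k : Type) [Field k] [NumberField k] (S : Finset (Place k)) (K : Type)
  [Field K] [NumberField K] [Algebra k K] (c : Fin 3 → k) (x : Fin 3 → K), c 2 = 1 → x ≠ 0 →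
  evalForm c x ≠ 0 → (∀ w ∉ placesAbove K S, loc c x w = 0) →
  height x ≤ ∑ᶠ w ∈ placesAbove K S, loc c x w

/-- HGT (150 lines).  USES EVL.  The height tends to infinity.

PROOF.  `A` = the set of the coefficients of all `LL k a b p`, `E` from `exists_bound_err A`, `err = err A`, `x = pt t`.  All
`evalForm (LL ..) x ≠ 0` (EVL; `t ≠ a_i, b_i`).  Let `w` be an infinite place.  By EVL
`log |(ln b_i b_i)(x)|_w = 2 log |t - b_i|_w`, and the same for `a_i`.  The hypothesis gives
`∑_i log |t - a_i|_w = m log |2|_w + ∑_i log |t - b_i|_w`, `log |2|_w = weight w * log 2`.  So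
`∑_i mu (ln b_i b_i) w x = δ log ‖x‖_w - 2 ∑ log |t - b_i|_w = 2 m weight w log 2 + ∑_i mu (ln a_i a_i) w x
≥ 2 m weight w log 2 - δ err w` (`mu_add_err_nonneg`).  Sum over the infinite places (`sum_weight_inf`):
`∑_i ∑_{w infinite} mu (ln b_i b_i) w x ≥ 2 m log 2 - δ E`.  By `sum_mu_le` (with `T` = the set of the infinite places) the left
side is at most `δ (height x + E)`.  So `2 m log 2 ≤ δ (height x + 2 E)`. -/
def SpecHGT : Prop := ∀ (k : Type) [Field k] [NumberField k] (δ : ℕ) (a b : Fin δ → ℤ),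
  ∃ E : ℝ, ∀ (K : Type) [Field K] [NumberField K] [Algebra k K] (m : ℕ) (t : K),
    (∀ i, t ≠ a i) → (∀ i, t ≠ b i) → ∏ i, (t - a i) = 2 ^ m * ∏ i, (t - b i) →
    2 * m * Real.log 2 ≤ δ * (height (pt t) + E)

/-- EXT (100 lines).  USES nothing.  The field.

PROOF.  `F = ∏ (X - a_i) - 2^m ∏ (X - b_i)` in `k[X]`: the coefficient of `X^δ` is `1 - 2^m ≠ 0` (`m ≥ 1`, characteristic 0), the
degree is `δ ≥ 1` (`Polynomial.natDegree_prod_of_monic`, `coeff`), so `F` has a root `τ` in `AlgebraicClosure k`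
(`IsAlgClosed.exists_root`).  `K = IntermediateField.adjoin k {τ}`, a finite extension of `k`
(`IntermediateField.adjoin.finrank`: `finrank = natDegree (minpoly k τ) ≤ natDegree F = δ`, `minpoly.natDegree_le_of_..` /
`minpoly.dvd`), so `K` is a number field (`NumberField.of_module_finite k K` or finite dimensional over `ℚ` by the tower).
`t = ⟨τ, _⟩`.  The identity for `t` follows from injectivity of `K → AlgebraicClosure k`. -/
def SpecEXT : Prop := ∀ (k : Type) [Field k] [NumberField k] (δ : ℕ), 1 ≤ δ → ∀ (a b : Fin δ → ℤ)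
  (m : ℕ), 1 ≤ m → ∃ (K : Type) (_ : Field K) (_ : NumberField K) (_ : Algebra k K) (t : K),
    Module.finrank k K ≤ δ ∧ ∏ i, (t - a i) = 2 ^ m * ∏ i, (t - b i)

/-- ZAV (90 lines).  USES nothing.  Avoiding finitely many lines.

PROOF.  First: `t ≠ a_i, b_j` for every solution of the equation in a field of characteristic 0: if `τ = a_i` the left side is `0`
and the right side is `2^m ∏ (a_i - b_j) ≠ 0`; if `τ = b_j` the right side is `0` and the left side is not.  For `M ≠ 0` the
polynomial `M_0 + M_1 X + M_2 X²` is nonzero and has finitely many roots `τ`; for every `τ` there is at most one `m` with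
`∏ (τ - a_i) = 2^m ∏ (τ - b_i)` and all factors nonzero (`2^m` is injective in characteristic 0).  `Z` is finite: take `m₀` larger than
these `m`. -/
def SpecZAV : Prop := ∀ (L : Type) [Field L] [CharZero L] (δ : ℕ) (a b : Fin δ → ℤ),
  (∀ i j, a i ≠ b j) → (∀ (m : ℕ) (τ : L), ∏ i, (τ - a i) = 2 ^ m * ∏ i, (τ - b i) →
    (∀ i, τ ≠ a i) ∧ ∀ i, τ ≠ b i) ∧
  ∀ Z : Finset (Fin 3 → L), (∀ M ∈ Z, M ≠ 0) → ∃ m₀ : ℕ, ∀ m ≥ m₀, ∀ τ : L,
    ∏ i, (τ - a i) = 2 ^ m * ∏ i, (τ - b i) → ∀ M ∈ Z, ∑ j, M j * pt τ j ≠ 0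

/-- FIN (150 lines).  USES EVL, SPL, LCT, SET, GEN, INT, HGT, EXT, ZAV.  The theorem.

PROOF.  `a, b` from GEN, `N = 2 ∏ ∏ (a_i - b_j) ≠ 0`, `S` from SET.  The lines: `ℓ i = LL k a b (e (Fin.castLE hq i))` with the
equivalence `e = finProdFinEquiv.symm : Fin (δ * 3) ≃ Fin δ × Fin 3` (`3 * δ = δ * 3`).  Given `Z, B`: `m` with `m ≥ 1`, `m ≥ m₀` (ZAV for
`L = AlgebraicClosure k` and `Z`) and `2 m log 2 ≥ δ (|B| + |E|)` (HGT).  EXT: `K, t`; `x = pt t`.  `t ≠ a_i, b_i` by ZAV (first part, `L = K`).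
`evalForm (ℓ i) x ≠ 0` by EVL.  `B ≤ height x` by HGT (`δ ≥ 1`).  For `σ : K →ₐ[k] AlgebraicClosure k` the element `σ t` satisfies the same
equation, and `σ (x j) = pt (σ t) j`: ZAV.  For a place `w` not above `S`: `w = inr w'`, SPL, and LCT for each of the three kinds of lines:
`loc = 0`.  INT: every summand of `proximity S ℓ x` is at least `height x` (`LL .. 2 = 1`: the last coordinate); sum over `q` lines. -/
def SpecFIN : Prop := ∀ (k : Type) [Field k] [NumberField k] (δ q : ℕ), 1 ≤ δ → q ≤ 3 * δ →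
  ∃ (S : Finset (Place k)) (ℓ : Fin q → Fin 3 → k),
    (∀ i j l, i ≠ j → i ≠ l → j ≠ l → LinearIndependent k ![ℓ i, ℓ j, ℓ l]) ∧
    ∀ (Z : Finset (Fin 3 → AlgebraicClosure k)) (B : ℝ), (∀ M ∈ Z, M ≠ 0) →
      ∃ (K : Type) (_ : Field K) (_ : NumberField K) (_ : Algebra k K) (x : Fin 3 → K),
        Module.finrank k K ≤ δ ∧ x ≠ 0 ∧ (∀ i, evalForm (ℓ i) x ≠ 0) ∧
        (∀ σ : K →ₐ[k] AlgebraicClosure k, ∀ M ∈ Z, ∑ j, M j * σ (x j) ≠ 0) ∧
        B ≤ height x ∧ q * height x ≤ proximity S ℓ x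

end Pool.Agent.Lib.MP_d0e829_nt.SH
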